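import Pool.Agent.Q93.CR.Defs

set_option autoImplicit false

open Finset

namespace Pool.Agent.Q93.CR

/-- `F_2^n` -/
abbrev V (n : ℕ) := Fin n → ZMod 2

/-- the hash functions -/
def hh (n k : ℕ) : (Fin k → V n) →+ (V n →+ V k) :=
  AddMonoidHom.mk' (fun a => AddMonoidHom.mk' (fun v i => ∑ l, a i l * v l)
    (fun v w => funext fun i => by simp [mul_add, sum_add_distrib]))
    (fun a b => AddMonoidHom.ext fun v => funext fun i => by simp [add_mul, sum_add_distrib])

lemma hh_apply (n k : ℕ) (a : Fin k → V n) (v : V n) (i : Fin k) :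
    hh n k a v i = ∑ l, a i l * v l := rfl

lemma zmod2 (x : ZMod 2) : x = 0 ∨ x = 1 := by
  revert x; decide

lemma hh_one (n k : ℕ) (z : V n) (hz : z ≠ 0) :
    (univ.filter fun a => hh n k a z = 0).card * 2 ^ k = Fintype.card (Fin k → V n) := by
  obtain ⟨l, hl⟩ := Function.ne_iff.1 hz
  have hl1 : z l = 1 := (zmod2 _).resolve_left hl
  have hs : Function.Surjective ((AddMonoidHom.flip (hh n k)) z) := by
    intro w
    refine ⟨fun i l' => if l' = l then w i else 0, ?_⟩
    funext i
    change ∑ l', (if l' = l then w i else 0) * z l' = w i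
    simp [ite_mul, hl1]
  have := Pool.Agent.Q93.MK.card_ker ((AddMonoidHom.flip (hh n k)) z) hs
  rw [Fintype.card_fun, ZMod.card, Fintype.card_fin] at this
  exact this

lemma hh_two_aux (n k : ℕ) (z z' : V n) (l l' : Fin n) (h1 : z l = 1) (h2 : z' l = 0)
    (h3 : z' l' = 1) : Function.Surjective fun a : Fin k → V n => (hh n k a z, hh n k a z') := by
  rintro ⟨w, w'⟩
  have hne : l ≠ l' := by rintro rfl; rw [h2] at h3; exact zero_ne_one h3
  refine ⟨fun i j => if j = l then w i - w' i * z l' else if j = l' then w' i else 0, ?_⟩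
  refine Prod.ext (funext fun i => ?_) (funext fun i => ?_)
  · show hh n k _ z i = w i
    rw [hh_apply]
    have : ∀ j, (if j = l then w i - w' i * z l' else if j = l' then w' i else 0) * z j =
        (if j = l then (w i - w' i * z l') * z j else 0) + (if j = l' then w' i * z j else 0) := by
      intro j
      by_cases hj : j = l
      · subst hj; simp [hne]
      · by_cases hj' : j = l' <;> simp [hj, hj', hne.symm]
    rw [sum_congr rfl fun j _ => this j, sum_add_distrib]
    simp [h1]
  · show hh n k _ z' i = w' i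
    rw [hh_apply]
    have : ∀ j, (if j = l then w i - w' i * z l' else if j = l' then w' i else 0) * z' j =
        (if j = l then (w i - w' i * z l') * z' j else 0) + (if j = l' then w' i * z' j else 0) := by
      intro j
      by_cases hj : j = l
      · subst hj; simp [hne]
      · by_cases hj' : j = l' <;> simp [hj, hj', hne.symm]
    rw [sum_congr rfl fun j _ => this j, sum_add_distrib]
    simp [h2, h3]

lemma hh_two (n k : ℕ) (z z' : V n) (hz : z ≠ 0) (hz' : z' ≠ 0) (hne : z ≠ z') :
    (univ.filter fun a => hh n k a z = 0 ∧ hh n k a z' = 0).card * (2 ^ k) ^ 2 =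
      Fintype.card (Fin k → V n) := by
  have hs : Function.Surjective fun a : Fin k → V n => (hh n k a z, hh n k a z') := by
    obtain ⟨l, hl⟩ := Function.ne_iff.1 hne
    rcases zmod2 (z l) with h | h
    · have h' : z' l = 1 := (zmod2 _).resolve_left (fun h0 => hl (h.trans h0.symm))
      obtain ⟨l', hl'⟩ := Function.ne_iff.1 hz
      have := hh_two_aux n k z' z l l' h' h ((zmod2 _).resolve_left hl')
      intro w
      obtain ⟨a, ha⟩ := this w.swap
      exact ⟨a, by
        have e1 := congrArg Prod.fst ha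
        have e2 := congrArg Prod.snd ha
        exact Prod.ext e2 e1⟩
    · have h' : z' l = 0 := (zmod2 _).resolve_right (fun h0 => hl (h.trans h0.symm))
      obtain ⟨l', hl'⟩ := Function.ne_iff.1 hz'
      exact hh_two_aux n k z z' l l' h h' ((zmod2 _).resolve_left hl')
  have := Pool.Agent.Q93.MK.card_ker
    (((AddMonoidHom.flip (hh n k)) z).prod ((AddMonoidHom.flip (hh n k)) z')) hs
  rw [Fintype.card_prod, Fintype.card_fun, ZMod.card, Fintype.card_fin, ← pow_two] at this
  rw [← this]
  congr 2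
  ext a
  simp only [mem_filter, mem_univ, true_and, AddMonoidHom.prod_apply, AddMonoidHom.flip_apply,
    Prod.mk_eq_zero]

/-- the power-saving bound -/
def PS (c C : ℝ) : Prop :=
  ∀ (n : ℕ) (A : Finset (V n × V n)), CF A → (A.card : ℝ) ≤ C * ((2 : ℝ) ^ n) ^ (2 - 2 * c)

/-- a corner-free set in a class of a homomorphism -/
lemma class_bound {c C : ℝ} (hC : 0 ≤ C) (h : PS c C) {n k : ℕ} (φ : V n →+ V k)
    (S : Finset (V n × V n)) (hS : CF S) (u v : V k) (hu : ∀ p ∈ S, φ p.1 = u ∧ φ p.2 = v) :
    (S.card : ℝ) ≤ C * (Nat.card φ.ker : ℝ) ^ (2 - 2 * c) := by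
  classical
  rcases S.eq_empty_or_nonempty with rfl | ⟨p0, hp0⟩
  · simp only [card_empty, Nat.cast_zero]; positivity
  set ψ : V n →ₗ[ZMod 2] V k := φ.toZModLinearMap 2 with hψ
  set K := LinearMap.ker ψ with hK
  set m := Module.finrank (ZMod 2) K with hm
  set e : K ≃ₗ[ZMod 2] (Fin m → ZMod 2) := (Module.finBasis (ZMod 2) K).equivFun with he
  have hmem : ∀ x : V n, x ∈ K ↔ φ x = 0 := fun x => Iff.rfl
  have hcard : (Nat.card φ.ker : ℝ) = (2 : ℝ) ^ m := by
    have h1 : Nat.card φ.ker = Nat.card K := Nat.card_congr (Equiv.refl _)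
    rw [h1, Nat.card_congr e.toEquiv, Nat.card_eq_fintype_card, Fintype.card_fun, ZMod.card,
      Fintype.card_fin]
    push_cast
    rfl
  set S' : Finset (V m × V m) := univ.filter fun q =>
    (p0.1 + (e.symm q.1 : V n), p0.2 + (e.symm q.2 : V n)) ∈ S with hS'
  have hle : S.card ≤ S'.card := by
    have hk : ∀ p ∈ S, p.1 - p0.1 ∈ K ∧ p.2 - p0.2 ∈ K := by
      intro p hp
      rw [hmem, hmem, map_sub, map_sub, (hu p hp).1, (hu p hp).2, (hu p0 hp0).1, (hu p0 hp0).2]
      simp
    have hex : ∀ p : V n × V n, ∃ q : V m × V m, p ∈ S →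
        p = (p0.1 + (e.symm q.1 : V n), p0.2 + (e.symm q.2 : V n)) := by
      intro p
      by_cases hp : p ∈ S
      · refine ⟨(e ⟨_, (hk p hp).1⟩, e ⟨_, (hk p hp).2⟩), fun _ => ?_⟩
        rw [LinearEquiv.symm_apply_apply, LinearEquiv.symm_apply_apply]
        simp
      · exact ⟨0, fun h => absurd h hp⟩
    choose f hf using hex
    refine card_le_card_of_injOn f ?_ ?_
    · intro p hp
      have hp' := mem_coe.1 hp
      rw [mem_coe, hS', mem_filter]
      refine ⟨mem_univ _, ?_⟩
      rw [← hf p hp']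
      exact hp'
    · intro p hp p' hp' hpp
      rw [hf p (mem_coe.1 hp), hf p' (mem_coe.1 hp'), hpp]
  have hCF : CF S' := by
    intro x y z hz h1 h2 h3
    rw [hS', mem_filter] at h1 h2 h3
    have hz' : (e.symm z : V n) ≠ 0 := by
      intro h0
      apply hz
      have : e.symm z = 0 := Subtype.ext h0
      simpa using this
    refine hS _ _ _ hz' h1.2 ?_ ?_
    · have := h2.2
      rw [map_add] at this
      simpa [add_assoc] using this
    · have := h3.2
      rw [map_add] at this
      simpa [add_assoc] using this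
  rw [hcard]
  refine le_trans (by exact_mod_cast hle) (h m S' hCF)

/-- in a class, at most four times as many points as in a corner-free subset -/
lemma four_times {V' : Type*} [AddCommGroup V'] [Fintype V'] [DecidableEq V']
    (h2 : ∀ z : V', z + z = 0) (B : Finset (V' × V'))
    (hu : ∀ q ∈ B, ∃ z : V', ∀ z' ∈ dirs B q, z' = z) :
    ∃ S ⊆ B, CF S ∧ B.card ≤ 4 * S.card := by
  classical
  obtain ⟨S, hS, hmax⟩ := exists_max_image (B.powerset.filter fun S => CF S) card
    ⟨∅, mem_filter.2 ⟨mem_powerset.2 (empty_subset _), fun x y z _ h => absurd h (by simp)⟩⟩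
  rw [mem_filter, mem_powerset] at hS
  refine ⟨S, hS.1, hS.2, ?_⟩
  have hex : ∀ q : V' × V', ∃ z : V', q ∈ B → ∀ z' ∈ dirs B q, z' = z := by
    intro q
    by_cases hq : q ∈ B
    · obtain ⟨z, hz⟩ := hu q hq
      exact ⟨z, fun _ => hz⟩
    · exact ⟨0, fun h => absurd h hq⟩
  choose ζ hζ using hex
  let cl : V' × V' → Finset (V' × V') := fun s =>
    {s, (s.1 + ζ s, s.2), (s.1, s.2 + ζ s), (s.1 + ζ s, s.2 + ζ s)}
  have hsub : B ⊆ S.biUnion cl := by
    intro q hq
    by_cases hqS : q ∈ S
    · exact mem_biUnion.2 ⟨q, hqS, by simp [cl]⟩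
    · have hins : ¬ CF (insert q S) := by
        intro hcf
        have h3 := hmax (insert q S) (mem_filter.2 ⟨mem_powerset.2
          (insert_subset hq hS.1), hcf⟩)
        rw [card_insert_of_notMem hqS] at h3
        omega
      unfold CF at hins
      push Not at hins
      obtain ⟨x, y, z, hz, a1, a2, a3⟩ := hins
      have hBsub : insert q S ⊆ B := insert_subset hq hS.1
      have hcor : (x, y, z) ∈ corners B := by
        unfold corners
        exact mem_filter.2 ⟨mem_univ _, hz, hBsub a1, hBsub a2, hBsub a3⟩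
      -- a vertex in S
      have hdir : ∀ s ∈ S, s ∈ vert (x, y, z) → z = ζ s := fun s hs hv =>
        hζ s (hS.1 hs) z (mem_dirs.2 ⟨x, y, hcor, hv⟩)
      have hxy : (x, y) ≠ (x + z, y) := by
        intro h; exact hz (by simpa using congrArg Prod.fst h)
      have hxy' : (x, y) ≠ (x, y + z) := by
        intro h; exact hz (by simpa using congrArg Prod.snd h)
      have hq3 : q = (x, y) ∨ q = (x, y + z) ∨ q = (x + z, y) := by
        by_contra hcon
        push Not at hcon
        exact hS.2 x y z hz (mem_of_mem_insert_of_ne a1 (Ne.symm hcon.1))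
          (mem_of_mem_insert_of_ne a2 (Ne.symm hcon.2.1))
          (mem_of_mem_insert_of_ne a3 (Ne.symm hcon.2.2))
      rcases hq3 with rfl | rfl | rfl
      · -- q = (x, y): use s = (x + z, y)
        have hs : (x + z, y) ∈ S := mem_of_mem_insert_of_ne a3 hxy.symm
        have hζs := hdir _ hs (mem_vert.2 (Or.inr (Or.inr rfl)))
        refine mem_biUnion.2 ⟨_, hs, ?_⟩
        have : (x, y) = ((x + z, y).1 + ζ (x + z, y), (x + z, y).2) := by
          rw [← hζs]; simp [add_assoc, h2]
        rw [this]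
        simp [cl]
      · -- q = (x, y + z): use s = (x, y)
        have hs : (x, y) ∈ S := mem_of_mem_insert_of_ne a1 hxy'
        have hζs := hdir _ hs (mem_vert.2 (Or.inl rfl))
        refine mem_biUnion.2 ⟨_, hs, ?_⟩
        have : (x, y + z) = ((x, y).1, (x, y).2 + ζ (x, y)) := by rw [← hζs]
        rw [this]
        simp [cl]
      · -- q = (x + z, y): use s = (x, y)
        have hs : (x, y) ∈ S := mem_of_mem_insert_of_ne a1 hxy
        have hζs := hdir _ hs (mem_vert.2 (Or.inl rfl))
        refine mem_biUnion.2 ⟨_, hs, ?_⟩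
        have : (x + z, y) = ((x, y).1 + ζ (x, y), (x, y).2) := by rw [← hζs]
        rw [this]
        simp [cl]
  calc B.card ≤ (S.biUnion cl).card := card_le_card hsub
    _ ≤ ∑ s ∈ S, (cl s).card := card_biUnion_le
    _ ≤ ∑ _s ∈ S, 4 := sum_le_sum fun s _ => by
        exact Finset.card_le_four
    _ = 4 * S.card := by rw [sum_const, smul_eq_mul, mul_comm]

/-- the points with a unique difference in the kernel -/
lemma uniq_bound {c C : ℝ} (hc : 0 < c) (hC : 0 ≤ C) (h : PS c C) {n k : ℕ} (φ : V n →+ V k)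
    (A B : Finset (V n × V n)) (hB : B ⊆ A) :
    ((B.filter fun q => uniq A φ q).card : ℝ) ≤
      4 * C * ((2 : ℝ) ^ n) ^ 2 * ((2 : ℝ) ^ k / (2 : ℝ) ^ n) ^ (2 * c) := by
  classical
  set B' := B.filter fun q => uniq A φ q with hB'
  set R : Finset (V k) := univ.image φ with hR
  set Kc : ℝ := (Nat.card φ.ker : ℝ) with hKc
  have hKpos : (0 : ℝ) < Kc := by
    have : 0 < Nat.card φ.ker := Nat.card_pos
    rw [hKc]
    exact_mod_cast this
  have hprod : Kc * R.card = (2 : ℝ) ^ n := by
    have h1 := φ.ker.card_mul_index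
    rw [AddSubgroup.index_ker] at h1
    have h2 : Nat.card φ.range = R.card := by
      rw [hR, ← Set.ncard_coe_finset, coe_image, coe_univ, Set.image_univ,
        ← Nat.card_coe_set_eq]
      rfl
    rw [h2, Nat.card_eq_fintype_card (α := V n), Fintype.card_fun, ZMod.card,
      Fintype.card_fin] at h1
    rw [hKc]
    exact_mod_cast h1
  have hRk : (R.card : ℝ) ≤ (2 : ℝ) ^ k := by
    have : R.card ≤ 2 ^ k := by
      refine (card_le_univ _).trans (le_of_eq ?_)
      rw [Fintype.card_fun, ZMod.card, Fintype.card_fin]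
    exact_mod_cast this
  -- classes
  let cls : V k × V k → Finset (V n × V n) := fun w => B'.filter fun q => (φ q.1, φ q.2) = w
  have hcls : ∀ w, ((cls w).card : ℝ) ≤ 4 * (C * Kc ^ (2 - 2 * c)) := by
    intro w
    obtain ⟨S, hS, hCF, hcard⟩ := four_times (V' := V n)
      (fun z => by funext i; exact CharTwo.add_self_eq_zero (z i)) (cls w) (by
        intro q hq
        have hq' := mem_filter.1 hq
        have hqu := (mem_filter.1 hq'.1).2
        obtain ⟨z, hz⟩ := card_eq_one.1 hqu
        refine ⟨z, fun z' hz' => ?_⟩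
        have : z' ∈ (dirs A q).filter fun z => φ z = 0 := by
          refine mem_filter.2 ⟨dirs_mono ?_ q hz', ?_⟩
          · exact ((filter_subset _ _).trans (filter_subset _ _)).trans hB
          · obtain ⟨x, y, hc', _⟩ := mem_dirs.1 hz'
            have h3 := (mem_filter.1 hc').2
            have e1 := (mem_filter.1 h3.2.1).2
            have e2 := (mem_filter.1 h3.2.2.2).2
            have e3 : φ (x + z') = φ x := by
              have := e2.trans e1.symm
              exact congrArg Prod.fst this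
            rw [map_add] at e3
            simpa using e3
        rw [hz] at this
        exact mem_singleton.1 this)
    have hSb := class_bound hC h φ S hCF w.1 w.2 (fun p hp => by
      have := (mem_filter.1 (hS hp)).2
      exact ⟨congrArg Prod.fst this, congrArg Prod.snd this⟩)
    calc ((cls w).card : ℝ) ≤ ((4 * S.card : ℕ) : ℝ) := by exact_mod_cast hcard
      _ = 4 * (S.card : ℝ) := by push_cast; ring
      _ ≤ 4 * (C * Kc ^ (2 - 2 * c)) := mul_le_mul_of_nonneg_left hSb (by norm_num)
  have hsum : B'.card = ∑ w ∈ R ×ˢ R, (cls w).card :=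
    card_eq_sum_card_fiberwise (f := fun q : V n × V n => (φ q.1, φ q.2)) (t := R ×ˢ R)
      (fun q _ => mem_coe.2 (mem_product.2 ⟨mem_image_of_mem _ (mem_univ _),
        mem_image_of_mem _ (mem_univ _)⟩))
  have h2n : (0 : ℝ) < (2 : ℝ) ^ n := by positivity
  calc (B'.card : ℝ) = ∑ w ∈ R ×ˢ R, ((cls w).card : ℝ) := by rw [hsum]; push_cast; rfl
    _ ≤ ∑ _w ∈ R ×ˢ R, 4 * (C * Kc ^ (2 - 2 * c)) := sum_le_sum fun w _ => hcls w
    _ = (R.card : ℝ) ^ 2 * (4 * (C * Kc ^ (2 - 2 * c))) := by
        rw [sum_const, card_product, nsmul_eq_mul]; push_cast; ring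
    _ = 4 * C * ((2 : ℝ) ^ n) ^ 2 * Kc ^ (-(2 * c)) := by
        have e1 : Kc ^ (2 - 2 * c) = Kc ^ 2 * Kc ^ (-(2 * c)) := by
          rw [sub_eq_add_neg, Real.rpow_add hKpos]
          norm_num
        rw [e1, ← hprod]
        ring
    _ ≤ 4 * C * ((2 : ℝ) ^ n) ^ 2 * ((2 : ℝ) ^ k / (2 : ℝ) ^ n) ^ (2 * c) := by
        refine mul_le_mul_of_nonneg_left ?_ (by positivity)
        have e2 : ((2 : ℝ) ^ k / (2 : ℝ) ^ n) ^ (2 * c) =
            ((2 : ℝ) ^ n / (2 : ℝ) ^ k) ^ (-(2 * c)) := by
          rw [Real.rpow_neg (by positivity), ← Real.inv_rpow (by positivity), inv_div]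
        rw [e2]
        refine Real.rpow_le_rpow_of_nonpos (by positivity) ?_ (by linarith)
        rw [div_le_iff₀ (by positivity), ← hprod]
        exact mul_le_mul_of_nonneg_left hRk hKpos.le

/-- **few points of given degree** -/
lemma few_of_degree {c C : ℝ} (hc : 0 < c) (hC : 0 ≤ C) (h : PS c C) {n : ℕ}
    (A B : Finset (V n × V n)) (hB : B ⊆ A) (τ : ℕ) (hτ : 0 < τ)
    (h1 : ∀ q ∈ B, τ ≤ (dirs A q).card) (h2 : ∀ q ∈ B, (dirs A q).card ≤ 2 * τ) :
    (B.card : ℝ) ≤ 64 * C * ((2 : ℝ) ^ n) ^ 2 * (8 * τ / (2 : ℝ) ^ n) ^ (2 * c) := by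
  classical
  set k := Nat.log 2 (4 * τ) + 1 with hk
  have hQ1 : 4 * τ ≤ 2 ^ k := (Nat.lt_pow_succ_log_self (by norm_num) _).le
  have hQ2 : 2 ^ k ≤ 8 * τ := by
    have := Nat.pow_log_le_self 2 (show 4 * τ ≠ 0 by omega)
    rw [hk, pow_succ]; omega
  obtain ⟨a, ha⟩ : ∃ a : Fin k → V n,
      B.card ≤ 16 * (B.filter fun q => uniq A (hh n k a) q).card := by
    by_contra hcon
    push Not at hcon
    have e1 : ∑ a : Fin k → V n, (B.filter fun q => uniq A (hh n k a) q).card =
        ∑ q ∈ B, (univ.filter fun a => uniq A (hh n k a) q).card := by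
      simp_rw [card_filter]
      rw [sum_comm]
    have e2 : 16 * ∑ a : Fin k → V n, (B.filter fun q => uniq A (hh n k a) q).card <
        Fintype.card (Fin k → V n) * B.card := by
      rw [mul_sum]
      calc ∑ a : Fin k → V n, 16 * (B.filter fun q => uniq A (hh n k a) q).card
          < ∑ _a : Fin k → V n, B.card :=
            sum_lt_sum_of_nonempty univ_nonempty fun a _ => hcon a
        _ = Fintype.card (Fin k → V n) * B.card := by rw [sum_const, smul_eq_mul, card_univ]
    have e3 : Fintype.card (Fin k → V n) * B.card ≤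
        16 * ∑ q ∈ B, (univ.filter fun a => uniq A (hh n k a) q).card := by
      rw [mul_sum]
      calc Fintype.card (Fin k → V n) * B.card = ∑ q ∈ B, Fintype.card (Fin k → V n) := by
            rw [sum_const, smul_eq_mul, mul_comm]
        _ ≤ _ := sum_le_sum fun q hq => uniq_many (hh n k) (2 ^ k) (by positivity)
            (fun z hz => hh_one n k z hz) (fun z z' hz hz' hne => hh_two n k z z' hz hz' hne)
            A q τ (h1 q hq) (h2 q hq) hQ1 hQ2
    rw [← e1] at e3
    omega
  have h3 := uniq_bound hc hC h (hh n k a) A B hB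
  calc (B.card : ℝ) ≤ ((16 * (B.filter fun q => uniq A (hh n k a) q).card : ℕ) : ℝ) := by
        exact_mod_cast ha
    _ = 16 * ((B.filter fun q => uniq A (hh n k a) q).card : ℝ) := by push_cast; ring
    _ ≤ 16 * (4 * C * ((2 : ℝ) ^ n) ^ 2 * ((2 : ℝ) ^ k / (2 : ℝ) ^ n) ^ (2 * c)) :=
        mul_le_mul_of_nonneg_left h3 (by norm_num)
    _ ≤ 16 * (4 * C * ((2 : ℝ) ^ n) ^ 2 * (8 * τ / (2 : ℝ) ^ n) ^ (2 * c)) := by
        refine mul_le_mul_of_nonneg_left (mul_le_mul_of_nonneg_left ?_ (by positivity))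
          (by norm_num)
        refine Real.rpow_le_rpow (by positivity) ?_ (by linarith)
        refine div_le_div_of_nonneg_right ?_ (by positivity)
        exact_mod_cast hQ2
    _ = 64 * C * ((2 : ℝ) ^ n) ^ 2 * (8 * τ / (2 : ℝ) ^ n) ^ (2 * c) := by ring

end Pool.Agent.Q93.CR
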