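import Pool.Agent.Q93.MK.Hash

set_option autoImplicit false

open Finset

namespace Pool.Agent.Q93.CR

/-! # Corners in `V × V`, `V` a finite elementary abelian 2-group -/

section
variable {V : Type*} [AddCommGroup V] [Fintype V] [DecidableEq V]

/-- the nontrivial corners of `A` -/
def corners (A : Finset (V × V)) : Finset (V × V × V) :=
  univ.filter fun t => t.2.2 ≠ 0 ∧ (t.1, t.2.1) ∈ A ∧ (t.1, t.2.1 + t.2.2) ∈ A ∧
    (t.1 + t.2.2, t.2.1) ∈ A

/-- no nontrivial corner -/
def CF (A : Finset (V × V)) : Prop :=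
  ∀ x y z : V, z ≠ 0 → (x, y) ∈ A → (x, y + z) ∈ A → (x + z, y) ∉ A

omit [Fintype V] [DecidableEq V] in
lemma CF.mono {A B : Finset (V × V)} (h : A ⊆ B) (hB : CF B) : CF A :=
  fun x y z hz h1 h2 h3 => hB x y z hz (h h1) (h h2) (h h3)

lemma CF_iff (A : Finset (V × V)) : CF A ↔ corners A = ∅ := by
  unfold CF corners
  rw [filter_eq_empty_iff]
  constructor
  · rintro h ⟨x, y, z⟩ _ ⟨hz, h1, h2, h3⟩
    exact h x y z hz h1 h2 h3
  · intro h x y z hz h1 h2 h3
    exact h (mem_univ (x, y, z)) ⟨hz, h1, h2, h3⟩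

lemma corners_mono {A B : Finset (V × V)} (h : A ⊆ B) : corners A ⊆ corners B := by
  intro t ht
  unfold corners at ht ⊢
  rw [mem_filter] at ht ⊢
  exact ⟨ht.1, ht.2.1, h ht.2.2.1, h ht.2.2.2.1, h ht.2.2.2.2⟩

/-- the vertices of a corner -/
def vert (t : V × V × V) : Finset (V × V) :=
  {(t.1, t.2.1), (t.1, t.2.1 + t.2.2), (t.1 + t.2.2, t.2.1)}

omit [Fintype V] in
lemma mem_vert {t : V × V × V} {q : V × V} : q ∈ vert t ↔ q = (t.1, t.2.1) ∨
    q = (t.1, t.2.1 + t.2.2) ∨ q = (t.1 + t.2.2, t.2.1) := by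
  unfold vert
  rw [mem_insert, mem_insert, mem_singleton]

/-- the corners of `A` through the point `q` -/
def thr (A : Finset (V × V)) (q : V × V) : Finset (V × V × V) :=
  (corners A).filter fun t => q ∈ vert t

/-- the differences of the corners of `A` through the point `q` -/
def dirs (A : Finset (V × V)) (q : V × V) : Finset V := (thr A q).image fun t => t.2.2

lemma mem_dirs {A : Finset (V × V)} {q : V × V} {z : V} :
    z ∈ dirs A q ↔ ∃ x y, (x, y, z) ∈ corners A ∧ q ∈ vert (x, y, z) := by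
  unfold dirs thr
  constructor
  · intro h
    obtain ⟨⟨x, y, z'⟩, ht, hz⟩ := mem_image.1 h
    obtain ⟨h1, h2⟩ := mem_filter.1 ht
    simp only at hz
    subst hz
    exact ⟨x, y, h1, h2⟩
  · rintro ⟨x, y, h1, h2⟩
    exact mem_image.2 ⟨(x, y, z), mem_filter.2 ⟨h1, h2⟩, rfl⟩

lemma dirs_mono {A B : Finset (V × V)} (h : A ⊆ B) (q : V × V) : dirs A q ⊆ dirs B q := by
  intro z hz
  obtain ⟨x, y, h1, h2⟩ := mem_dirs.1 hz
  exact mem_dirs.2 ⟨x, y, corners_mono h h1, h2⟩

lemma ne_zero_of_mem_dirs {A : Finset (V × V)} {q : V × V} {z : V} (h : z ∈ dirs A q) : z ≠ 0 := by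
  obtain ⟨x, y, h1, _⟩ := mem_dirs.1 h
  exact (mem_filter.1 h1).2.1

/-- removing a point destroys at least `|dirs|` corners -/
lemma card_corners_erase (A : Finset (V × V)) (q : V × V) :
    (corners (A.erase q)).card + (dirs A q).card ≤ (corners A).card := by
  have h1 : Disjoint (corners (A.erase q)) (thr A q) := by
    rw [disjoint_left]
    intro t ht ht'
    have h2 := (mem_filter.1 ht).2
    have h3 := mem_vert.1 (mem_filter.1 ht').2
    rcases h3 with h | h | h
    · exact (mem_erase.1 h2.2.1).1 h.symm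
    · exact (mem_erase.1 h2.2.2.1).1 h.symm
    · exact (mem_erase.1 h2.2.2.2).1 h.symm
  calc (corners (A.erase q)).card + (dirs A q).card
      ≤ (corners (A.erase q)).card + (thr A q).card := Nat.add_le_add_left card_image_le _
    _ = (corners (A.erase q) ∪ thr A q).card := (card_union_of_disjoint h1).symm
    _ ≤ (corners A).card := card_le_card (union_subset (corners_mono (erase_subset _ _))
        (filter_subset _ _))

/-- peeling -/
lemma peel (τ : ℕ) : ∀ (n : ℕ) (A : Finset (V × V)), A.card = n →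
    ∃ A' ⊆ A, (∀ q ∈ A', (dirs A' q).card < τ) ∧ (∀ q ∈ A \ A', τ ≤ (dirs A q).card) ∧
      (A \ A').card * τ + (corners A').card ≤ (corners A).card := by
  intro n
  induction n with
  | zero =>
    intro A hA
    rw [card_eq_zero] at hA
    subst hA
    exact ⟨∅, Subset.rfl, by simp, by simp, by simp⟩
  | succ n ih =>
    intro A hA
    by_cases h : ∀ q ∈ A, (dirs A q).card < τ
    · exact ⟨A, Subset.rfl, h, by simp, by simp⟩
    · push Not at h
      obtain ⟨q, hq, hqτ⟩ := h
      obtain ⟨A', hA', h1, h2, h3⟩ := ih (A.erase q) (by rw [card_erase_of_mem hq, hA]; rfl)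
      have hqA' : q ∉ A' := fun h => notMem_erase q A (hA' h)
      have hsd : A \ A' = insert q (A.erase q \ A') := by
        ext p
        simp only [mem_sdiff, mem_insert, mem_erase]
        constructor
        · rintro ⟨hp1, hp2⟩
          by_cases hpq : p = q
          · exact Or.inl hpq
          · exact Or.inr ⟨⟨hpq, hp1⟩, hp2⟩
        · rintro (rfl | ⟨⟨_, hp1⟩, hp2⟩)
          · exact ⟨hq, hqA'⟩
          · exact ⟨hp1, hp2⟩
      refine ⟨A', hA'.trans (erase_subset _ _), h1, ?_, ?_⟩
      · intro p hp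
        rw [hsd] at hp
        rcases mem_insert.1 hp with rfl | hp
        · exact hqτ
        · exact (h2 p hp).trans (card_le_card (dirs_mono (erase_subset _ _) p))
      · have hcard : (A \ A').card = (A.erase q \ A').card + 1 := by
          rw [hsd, card_insert_of_notMem]
          simp
        rw [hcard]
        have h4 := card_corners_erase A q
        nlinarith

end

section hashing
variable {V W G : Type*} [AddCommGroup V] [AddCommGroup W] [AddCommGroup G]
  [Fintype V] [Fintype G] [Fintype W] [DecidableEq V] [DecidableEq W] [DecidableEq G]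

/-- the points through which exactly one corner difference is in the kernel -/
def uniq (A : Finset (V × V)) (φ : V →+ W) (q : V × V) : Prop :=
  ((dirs A q).filter fun z => φ z = 0).card = 1

instance (A : Finset (V × V)) (φ : V →+ W) (q : V × V) : Decidable (uniq A φ q) := by
  unfold uniq; infer_instance

omit [Fintype W] [DecidableEq G] in
/-- a second moment estimate: for a point with `τ ≤ L < 2 τ` differences and `4 τ ≤ Q ≤ 8 τ` hash
values, for at least one sixteenth of the hash functions exactly one difference is in the kernel -/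
lemma uniq_many (Φ : G →+ (V →+ W)) (Q : ℕ) (hQ : 0 < Q)
    (h1 : ∀ z : V, z ≠ 0 → (univ.filter fun a => Φ a z = 0).card * Q = Fintype.card G)
    (h2 : ∀ z z' : V, z ≠ 0 → z' ≠ 0 → z ≠ z' →
      (univ.filter fun a => Φ a z = 0 ∧ Φ a z' = 0).card * Q ^ 2 = Fintype.card G)
    (A : Finset (V × V)) (q : V × V) (τ : ℕ) (hτ1 : τ ≤ (dirs A q).card)
    (hτ2 : (dirs A q).card ≤ 2 * τ) (hQ1 : 4 * τ ≤ Q) (hQ2 : Q ≤ 8 * τ) :
    Fintype.card G ≤ 16 * (univ.filter fun a => uniq A (Φ a) q).card := by
  classical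
  set Dq := dirs A q with hD
  set L := Dq.card with hL
  let X : G → ℕ := fun a => (Dq.filter fun z => Φ a z = 0).card
  -- first moment
  have m1 : (∑ a : G, X a) * Q = L * Fintype.card G := by
    have e : ∑ a : G, X a = ∑ z ∈ Dq, (univ.filter fun a => Φ a z = 0).card := by
      simp only [X, card_filter]
      rw [sum_comm]
    rw [e, sum_mul]
    rw [sum_congr rfl fun z hz => h1 z (ne_zero_of_mem_dirs hz), sum_const, smul_eq_mul]
  -- second moment
  have m2 : (∑ a : G, X a * X a) * Q ^ 2 = L * Fintype.card G * Q +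
      L * (L - 1) * Fintype.card G := by
    have e : ∑ a : G, X a * X a = ∑ z ∈ Dq, ∑ z' ∈ Dq,
        (univ.filter fun a => Φ a z = 0 ∧ Φ a z' = 0).card := by
      have e1 : ∀ a : G, X a * X a = ∑ z ∈ Dq, ∑ z' ∈ Dq,
          if Φ a z = 0 ∧ Φ a z' = 0 then 1 else 0 := by
        intro a
        simp only [X, card_filter]
        rw [sum_mul_sum]
        refine sum_congr rfl fun z _ => sum_congr rfl fun z' _ => ?_
        by_cases hz : Φ a z = 0 <;> by_cases hz' : Φ a z' = 0 <;> simp [hz, hz']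
      simp_rw [e1, card_filter]
      rw [sum_comm]
      refine sum_congr rfl fun z _ => ?_
      rw [sum_comm]
    have e2 : ∀ z ∈ Dq, (∑ z' ∈ Dq, (univ.filter fun a => Φ a z = 0 ∧ Φ a z' = 0).card) * Q ^ 2 =
        Fintype.card G * Q + (L - 1) * Fintype.card G := by
      intro z hz
      have hz0 := ne_zero_of_mem_dirs hz
      rw [← add_sum_erase Dq _ hz, add_mul]
      congr 1
      · have : (univ.filter fun a => Φ a z = 0 ∧ Φ a z = 0) = univ.filter fun a => Φ a z = 0 := by
          ext a; simp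
        rw [this, pow_two, ← mul_assoc, h1 z hz0]
      · rw [sum_mul, sum_congr rfl fun z' hz' => h2 z z' hz0
          (ne_zero_of_mem_dirs (mem_erase.1 hz').2) (mem_erase.1 hz').1.symm, sum_const,
          smul_eq_mul, card_erase_of_mem hz]
    rw [e, sum_mul, sum_congr rfl e2, sum_const, smul_eq_mul]
    ring
  -- pointwise: X ≤ [X = 1] + X (X - 1), i.e. 2 X ≤ [X = 1] + X X
  have hpt : ∀ a : G, 2 * X a ≤ (if uniq A (Φ a) q then 1 else 0) + X a * X a := by
    intro a
    have hu : uniq A (Φ a) q ↔ X a = 1 := Iff.rfl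
    by_cases h : X a = 1
    · rw [if_pos (hu.2 h), h]
    · rw [if_neg (fun h' => h (hu.1 h'))]
      have : X a = 0 ∨ 2 ≤ X a := by omega
      rcases this with h0 | h2'
      · rw [h0]
      · nlinarith
  have hsum : 2 * ∑ a : G, X a ≤ (univ.filter fun a => uniq A (Φ a) q).card +
      ∑ a : G, X a * X a := by
    rw [card_filter, ← sum_add_distrib, mul_sum]
    exact sum_le_sum fun a _ => hpt a
  set U := (univ.filter fun a => uniq A (Φ a) q).card with hU
  set g := Fintype.card G with hg
  -- multiply by Q ^ 2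
  have h3 : 2 * (L * g) * Q ≤ U * Q ^ 2 + (L * g * Q + L * (L - 1) * g) := by
    calc 2 * (L * g) * Q = (2 * ∑ a : G, X a) * Q ^ 2 := by rw [← m1]; ring
      _ ≤ (U + ∑ a : G, X a * X a) * Q ^ 2 := Nat.mul_le_mul_right _ hsum
      _ = U * Q ^ 2 + (L * g * Q + L * (L - 1) * g) := by rw [add_mul, m2]
  have hLQ : 2 * L ≤ Q := by omega
  -- L g Q ≤ U Q^2 + L (L-1) g ≤ U Q^2 + L g Q / 2
  have h4 : L * (L - 1) * g ≤ L * L * g :=
    Nat.mul_le_mul_right _ (Nat.mul_le_mul_left _ (Nat.sub_le _ _))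
  have h5 : L * g * Q ≤ U * Q ^ 2 + L * L * g := by
    have : 2 * (L * g) * Q = L * g * Q + L * g * Q := by ring
    omega
  have h6 : 2 * (L * L * g) ≤ L * g * Q := by
    calc 2 * (L * L * g) = (L * g) * (2 * L) := by ring
      _ ≤ (L * g) * Q := Nat.mul_le_mul_left _ hLQ
  have h7 : L * g * Q ≤ 2 * (U * Q ^ 2) := by omega
  have h8 : L * g ≤ 2 * U * Q := by
    have : (L * g) * Q ≤ (2 * U * Q) * Q := by
      calc (L * g) * Q ≤ 2 * (U * Q ^ 2) := h7
        _ = (2 * U * Q) * Q := by ring
    exact Nat.le_of_mul_le_mul_right this hQ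
  have hτ0 : 0 < τ := by omega
  have h9 : τ * g ≤ (16 * U) * τ := by
    calc τ * g ≤ L * g := Nat.mul_le_mul_right _ hτ1
      _ ≤ 2 * U * Q := h8
      _ ≤ 2 * U * (8 * τ) := Nat.mul_le_mul_left _ hQ2
      _ = (16 * U) * τ := by ring
  rw [mul_comm τ g] at h9
  exact Nat.le_of_mul_le_mul_right h9 hτ0

end hashing

end Pool.Agent.Q93.CR
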