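import Pool.Agent.Q93.CR.Core

set_option autoImplicit false

open Finset

namespace Pool.Agent.Q93.CR

/-- the removal lemma -/
def RL (D κ : ℝ) : Prop :=
  ∀ (n : ℕ) (A : Finset (V n × V n)) (ε : ℝ), 0 < ε →
    ((corners A).card : ℝ) < κ * ε ^ D * ((2 : ℝ) ^ n) ^ 3 →
    ∃ A' ⊆ A, CF A' ∧ ((A \ A').card : ℝ) ≤ ε * ((2 : ℝ) ^ n) ^ 2

/-- supersaturation -/
def SS (D κ : ℝ) : Prop :=
  ∀ (n : ℕ) (A : Finset (V n × V n)),
    κ * ((A.card : ℝ) / ((2 : ℝ) ^ n) ^ 2) ^ D * ((2 : ℝ) ^ n) ^ 3 ≤ (corners A).card + A.card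

section
variable {V' : Type*} [AddCommGroup V'] [Fintype V'] [DecidableEq V']

lemma CF_of_dirs (A : Finset (V' × V')) (h : ∀ q ∈ A, (dirs A q).card < 1) : CF A := by
  intro x y z hz h1 h2 h3
  have := h _ h1
  rw [Nat.lt_one_iff, card_eq_zero] at this
  have hm : z ∈ dirs A (x, y) := mem_dirs.2 ⟨x, y, mem_filter.2 ⟨mem_univ _, hz, h1, h2, h3⟩,
    mem_vert.2 (Or.inl rfl)⟩
  rw [this] at hm
  exact absurd hm (notMem_empty _)

lemma delete (A : Finset (V' × V')) :
    ∃ A' ⊆ A, CF A' ∧ (A \ A').card ≤ (corners A).card := by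
  obtain ⟨A', h1, h2, _, h4⟩ := peel 1 A.card A rfl
  exact ⟨A', h1, CF_of_dirs A' h2, by omega⟩

end

lemma stage {c C : ℝ} (hc : 0 < c) (hC : 0 ≤ C) (h : PS c C) {n : ℕ} :
    ∀ (i : ℕ) (A : Finset (V n × V n)), (∀ q ∈ A, (dirs A q).card < 2 ^ i) →
    ∃ A' ⊆ A, CF A' ∧ ((A \ A').card : ℝ) ≤
      ∑ l ∈ range i, 64 * C * ((2 : ℝ) ^ n) ^ 2 * (8 * (2 ^ l : ℕ) / (2 : ℝ) ^ n) ^ (2 * c) := by
  intro i
  induction i with
  | zero =>
    intro A hA
    exact ⟨A, Subset.rfl, CF_of_dirs A (by simpa using hA), by simp⟩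
  | succ i ih =>
    intro A hA
    obtain ⟨A1, hA1, h1, h2, _⟩ := peel (2 ^ i) A.card A rfl
    obtain ⟨A', hA', hcf, hcard⟩ := ih A1 h1
    refine ⟨A', hA'.trans hA1, hcf, ?_⟩
    have hB := few_of_degree hc hC h A (A \ A1) sdiff_subset (2 ^ i) (by positivity) h2
      (fun q hq => by
        have := hA q (mem_sdiff.1 hq).1
        rw [pow_succ] at this
        omega)
    have hsub : A \ A' ⊆ (A \ A1) ∪ (A1 \ A') := by
      intro q hq
      obtain ⟨h3, h4⟩ := mem_sdiff.1 hq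
      by_cases h5 : q ∈ A1
      · exact mem_union_right _ (mem_sdiff.2 ⟨h5, h4⟩)
      · exact mem_union_left _ (mem_sdiff.2 ⟨h3, h5⟩)
    have hc2 : ((A \ A').card : ℝ) ≤ ((A \ A1).card : ℝ) + ((A1 \ A').card : ℝ) := by
      exact_mod_cast (card_le_card hsub).trans (card_union_le _ _)
    rw [sum_range_succ]
    linarith

/-- power saving implies the removal lemma -/
theorem RL_of_PS {c C : ℝ} (hc : 0 < c) (hC : 0 < C) (h : PS c C) :
    ∃ κ : ℝ, 0 < κ ∧ RL (1 + 1 / (2 * c)) κ := by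
  set x : ℝ := (2 : ℝ) ^ (2 * c) with hx
  have hx1 : 1 < x := Real.one_lt_rpow (by norm_num) (by linarith)
  set E : ℝ := 64 * C * (8 : ℝ) ^ (2 * c) / (x - 1) with hE
  have hE0 : 0 < E := div_pos (by positivity) (by linarith)
  refine ⟨1 / (4 * (2 * E) ^ (1 / (2 * c))), by positivity, ?_⟩
  intro n A ε hε hcor
  set N : ℝ := (2 : ℝ) ^ n with hN
  have hN0 : 0 < N := by positivity
  set y : ℝ := (ε / (2 * E)) ^ (1 / (2 * c)) with hy
  have hy0 : 0 < y := Real.rpow_pos_of_pos (by positivity) _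
  have hcor' : ((corners A).card : ℝ) < ε * y / 4 * N ^ 3 := by
    refine lt_of_lt_of_eq hcor ?_
    rw [hy, Real.div_rpow hε.le (by positivity), Real.rpow_add hε, Real.rpow_one]
    ring
  by_cases hNy : N * y < 1
  · obtain ⟨A', h1, h2, h3⟩ := delete A
    refine ⟨A', h1, h2, ?_⟩
    have h4 : ((A \ A').card : ℝ) ≤ ((corners A).card : ℝ) := by exact_mod_cast h3
    have h5 : ε * y / 4 * N ^ 3 ≤ ε * N ^ 2 := by
      have e : ε * y / 4 * N ^ 3 = ε * N ^ 2 * ((N * y) / 4) := by ring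
      rw [e]
      exact mul_le_of_le_one_right (by positivity) (by linarith)
    linarith
  · push Not at hNy
    set K := Nat.log 2 ⌊N * y⌋₊ with hK
    have hfl : 1 ≤ ⌊N * y⌋₊ := Nat.le_floor (by rw [Nat.cast_one]; exact hNy)
    have hK1 : ((2 ^ K : ℕ) : ℝ) ≤ N * y := by
      have h1 : 2 ^ K ≤ ⌊N * y⌋₊ := Nat.pow_log_le_self 2 (by omega)
      calc ((2 ^ K : ℕ) : ℝ) ≤ (⌊N * y⌋₊ : ℝ) := by exact_mod_cast h1
        _ ≤ N * y := Nat.floor_le (by positivity)
    have hK2 : N * y < 2 * ((2 ^ K : ℕ) : ℝ) := by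
      have h1 : ⌊N * y⌋₊ < 2 ^ (K + 1) := Nat.lt_pow_succ_log_self (by norm_num) _
      have h2 : ⌊N * y⌋₊ + 1 ≤ 2 ^ (K + 1) := h1
      have h3 : ((⌊N * y⌋₊ + 1 : ℕ) : ℝ) ≤ ((2 ^ (K + 1) : ℕ) : ℝ) := by exact_mod_cast h2
      have h4 := Nat.lt_floor_add_one (N * y)
      push_cast at h3 ⊢
      rw [pow_succ] at h3
      linarith
    have hKpos : (0 : ℝ) < ((2 ^ K : ℕ) : ℝ) := by positivity
    obtain ⟨A1, hA1, h1, _, h3⟩ := peel (2 ^ K) A.card A rfl
    obtain ⟨A', hA', hcf, hcard⟩ := stage hc hC.le h K A1 h1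
    refine ⟨A', hA'.trans hA1, hcf, ?_⟩
    have hR0 : ((A \ A1).card : ℝ) ≤ ε * N ^ 2 / 2 := by
      have h4 : (A \ A1).card * 2 ^ K ≤ (corners A).card := by omega
      have h5 : ((A \ A1).card : ℝ) * ((2 ^ K : ℕ) : ℝ) ≤ ((corners A).card : ℝ) := by
        exact_mod_cast h4
      have h6 : ((A \ A1).card : ℝ) * ((2 ^ K : ℕ) : ℝ) ≤ ε * N ^ 2 / 2 * ((2 ^ K : ℕ) : ℝ) := by
        calc ((A \ A1).card : ℝ) * ((2 ^ K : ℕ) : ℝ) ≤ ((corners A).card : ℝ) := h5
          _ ≤ ε * y / 4 * N ^ 3 := hcor'.le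
          _ = ε * N ^ 2 / 4 * (N * y) := by ring
          _ ≤ ε * N ^ 2 / 4 * (2 * ((2 ^ K : ℕ) : ℝ)) :=
              mul_le_mul_of_nonneg_left hK2.le (by positivity)
          _ = ε * N ^ 2 / 2 * ((2 ^ K : ℕ) : ℝ) := by ring
      exact le_of_mul_le_mul_right h6 hKpos
    have hS : ∑ l ∈ range K, 64 * C * N ^ 2 * (8 * (2 ^ l : ℕ) / N) ^ (2 * c) ≤ ε * N ^ 2 / 2 := by
      have hp : ∀ l : ℕ, ((2 : ℝ) ^ l) ^ (2 * c) = x ^ l := by
        intro l
        rw [hx, ← Real.rpow_natCast, ← Real.rpow_natCast, ← Real.rpow_mul (by norm_num),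
          ← Real.rpow_mul (by norm_num), mul_comm]
      have e1 : ∀ l ∈ range K, 64 * C * N ^ 2 * (8 * (2 ^ l : ℕ) / N) ^ (2 * c) =
          64 * C * N ^ 2 * (8 / N) ^ (2 * c) * x ^ l := by
        intro l _
        have : (8 * ((2 ^ l : ℕ) : ℝ) / N) = (8 / N) * (2 : ℝ) ^ l := by push_cast; ring
        rw [this, Real.mul_rpow (by positivity) (by positivity), hp l]
        ring
      rw [sum_congr rfl e1, ← mul_sum, geom_sum_eq hx1.ne']
      have hxK : x ^ K = ((2 ^ K : ℕ) : ℝ) ^ (2 * c) := by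
        rw [← hp K]
        push_cast
        rfl
      have h7 : x ^ K ≤ (N * y) ^ (2 * c) := by
        rw [hxK]
        exact Real.rpow_le_rpow hKpos.le hK1 (by linarith)
      have h8 : (N * y) ^ (2 * c) = N ^ (2 * c) * (ε / (2 * E)) := by
        rw [Real.mul_rpow hN0.le hy0.le, hy, ← Real.rpow_mul (by positivity),
          one_div_mul_cancel (by positivity), Real.rpow_one]
      calc 64 * C * N ^ 2 * (8 / N) ^ (2 * c) * ((x ^ K - 1) / (x - 1))
          ≤ 64 * C * N ^ 2 * (8 / N) ^ (2 * c) * ((N * y) ^ (2 * c) / (x - 1)) := by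
            refine mul_le_mul_of_nonneg_left ?_ (by positivity)
            refine div_le_div_of_nonneg_right ?_ (by linarith)
            linarith
        _ = E * (ε / (2 * E)) * N ^ 2 := by
            rw [h8, Real.div_rpow (by norm_num) hN0.le, hE]
            have : N ^ (2 * c) ≠ 0 := (Real.rpow_pos_of_pos hN0 _).ne'
            field_simp
        _ = ε * N ^ 2 / 2 := by field_simp
    have hsub : A \ A' ⊆ (A \ A1) ∪ (A1 \ A') := by
      intro q hq
      obtain ⟨h3, h4⟩ := mem_sdiff.1 hq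
      by_cases h5 : q ∈ A1
      · exact mem_union_right _ (mem_sdiff.2 ⟨h5, h4⟩)
      · exact mem_union_left _ (mem_sdiff.2 ⟨h3, h5⟩)
    have hc2 : ((A \ A').card : ℝ) ≤ ((A \ A1).card : ℝ) + ((A1 \ A').card : ℝ) := by
      exact_mod_cast (card_le_card hsub).trans (card_union_le _ _)
    linarith

/-- supersaturation implies power saving -/
theorem PS_of_SS {c κ : ℝ} (hc : 0 < c) (hκ : 0 < κ) (h : SS (1 + 1 / (2 * c)) κ) :
    ∃ C : ℝ, 0 < C ∧ PS c C := by
  refine ⟨(1 / κ) ^ (2 * c), by positivity, ?_⟩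
  intro n A hA
  set N : ℝ := (2 : ℝ) ^ n with hN
  have hN0 : 0 < N := by positivity
  rcases A.eq_empty_or_nonempty with rfl | hne
  · simp only [card_empty, Nat.cast_zero]; positivity
  have hApos : (0 : ℝ) < A.card := by exact_mod_cast card_pos.2 hne
  have h1 := h n A
  rw [(CF_iff A).1 hA, card_empty, Nat.cast_zero, zero_add] at h1
  rw [← hN] at h1
  obtain ⟨α, hα0, hAα, hdiv⟩ : ∃ α : ℝ, 0 < α ∧ (A.card : ℝ) = α * N ^ 2 ∧
      (A.card : ℝ) / N ^ 2 = α :=
    ⟨(A.card : ℝ) / N ^ 2, by positivity, (div_mul_cancel₀ _ (by positivity)).symm, rfl⟩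
  rw [hdiv] at h1
  clear hdiv
  rw [hAα, Real.rpow_add hα0, Real.rpow_one] at h1
  have h2 : α ^ (1 / (2 * c)) ≤ 1 / κ * N⁻¹ := by
    have : κ * (α ^ (1 / (2 * c))) * N * (α * N ^ 2) ≤ 1 * (α * N ^ 2) := by
      calc κ * (α ^ (1 / (2 * c))) * N * (α * N ^ 2) = κ * (α * α ^ (1 / (2 * c))) * N ^ 3 := by ring
        _ ≤ α * N ^ 2 := h1
        _ = 1 * (α * N ^ 2) := by ring
    have h3 := le_of_mul_le_mul_right this (by positivity)
    rw [← div_eq_mul_inv, div_div, le_div_iff₀ (mul_pos hκ hN0)]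
    linarith
  have h4 : α ≤ (1 / κ) ^ (2 * c) * N ^ (-(2 * c)) := by
    have : α = (α ^ (1 / (2 * c))) ^ (2 * c) := by
      rw [← Real.rpow_mul hα0.le, one_div_mul_cancel (by positivity), Real.rpow_one]
    rw [this]
    refine (Real.rpow_le_rpow (by positivity) h2 (by linarith)).trans (le_of_eq ?_)
    rw [Real.mul_rpow (by positivity) (by positivity), Real.inv_rpow hN0.le,
      ← Real.rpow_neg hN0.le]
  calc (A.card : ℝ) = α * N ^ 2 := hAα
    _ ≤ (1 / κ) ^ (2 * c) * N ^ (-(2 * c)) * N ^ 2 := mul_le_mul_of_nonneg_right h4 (by positivity)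
    _ = (1 / κ) ^ (2 * c) * N ^ (2 - 2 * c) := by
        rw [mul_assoc]
        congr 1
        have : N ^ 2 = N ^ (2 : ℝ) := by norm_num
        rw [this, ← Real.rpow_add hN0]
        congr 1
        ring

/-- power saving implies supersaturation -/
theorem SS_of_PS {c C : ℝ} (hc : 0 < c) (hC : 0 < C) (h : PS c C) :
    ∃ κ : ℝ, 0 < κ ∧ SS (1 + 1 / (2 * c)) κ := by
  obtain ⟨κ1, hκ1, hRL⟩ := RL_of_PS hc hC h
  set D : ℝ := 1 + 1 / (2 * c) with hD
  have hD0 : 0 < D := by positivity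
  refine ⟨min (κ1 * (1 / 2) ^ D) ((2 * C) ^ (-(1 / (2 * c)))), lt_min (by positivity)
    (by positivity), ?_⟩
  intro n A
  set κ := min (κ1 * (1 / 2) ^ D) ((2 * C) ^ (-(1 / (2 * c)))) with hκ
  have hκa : κ ≤ κ1 * (1 / 2) ^ D := min_le_left _ _
  have hκb : κ ≤ (2 * C) ^ (-(1 / (2 * c))) := min_le_right _ _
  set N : ℝ := (2 : ℝ) ^ n with hN
  have hN0 : 0 < N := by positivity
  rcases A.eq_empty_or_nonempty with rfl | hne
  · simp only [card_empty, Nat.cast_zero, zero_div, add_zero]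
    rw [Real.zero_rpow hD0.ne']
    simp
  have hApos : (0 : ℝ) < A.card := by exact_mod_cast card_pos.2 hne
  obtain ⟨α, hα0, hAα, hdiv⟩ : ∃ α : ℝ, 0 < α ∧ (A.card : ℝ) = α * N ^ 2 ∧
      (A.card : ℝ) / N ^ 2 = α :=
    ⟨(A.card : ℝ) / N ^ 2, by positivity, (div_mul_cancel₀ _ (by positivity)).symm, rfl⟩
  rw [hdiv]
  clear hdiv
  by_cases hcor : ((corners A).card : ℝ) < κ1 * (α / 2) ^ D * N ^ 3
  · obtain ⟨A', hA', hcf, hcard⟩ := hRL n A (α / 2) (by positivity) hcor
    have h1 : (A.card : ℝ) ≤ A'.card + (A \ A').card := by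
      have : A.card = A'.card + (A \ A').card := by
        rw [card_sdiff_of_subset hA']
        have := card_le_card hA'
        omega
      rw [this]; push_cast; exact le_rfl
    have h2 : (A'.card : ℝ) ≤ C * N ^ (2 - 2 * c) := h n A' hcf
    have h3 : α / 2 * N ^ 2 ≤ C * N ^ (2 - 2 * c) := by
      rw [← hN] at hcard
      linarith
    have hNN : N ^ (2 - 2 * c) = N ^ 2 * N ^ (-(2 * c)) := by
      have : N ^ 2 = N ^ (2 : ℝ) := by norm_num
      rw [this, ← Real.rpow_add hN0]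
      congr 1
    have h4 : α ≤ 2 * C * N ^ (-(2 * c)) := by
      rw [hNN] at h3
      have h5 : α / 2 * N ^ 2 ≤ (C * N ^ (-(2 * c))) * N ^ 2 := by linarith
      have h6 := le_of_mul_le_mul_right h5 (by positivity)
      linarith
    have h7 : α ^ (1 / (2 * c)) ≤ (2 * C) ^ (1 / (2 * c)) * N⁻¹ := by
      refine (Real.rpow_le_rpow hα0.le h4 (by positivity)).trans (le_of_eq ?_)
      rw [Real.mul_rpow (by positivity) (by positivity), ← Real.rpow_mul hN0.le]
      congr 1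
      have : -(2 * c) * (1 / (2 * c)) = -1 := by field_simp
      rw [this, Real.rpow_neg_one]
    have h8 : κ * α ^ D * N ^ 3 ≤ A.card := by
      rw [hD, Real.rpow_add hα0, Real.rpow_one, hAα]
      calc κ * (α * α ^ (1 / (2 * c))) * N ^ 3
          ≤ (2 * C) ^ (-(1 / (2 * c))) * (α * ((2 * C) ^ (1 / (2 * c)) * N⁻¹)) * N ^ 3 := by
            refine mul_le_mul_of_nonneg_right ?_ (by positivity)
            refine mul_le_mul hκb ?_ (by positivity) (by positivity)
            exact mul_le_mul_of_nonneg_left h7 hα0.le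
        _ = ((2 * C) ^ (-(1 / (2 * c))) * (2 * C) ^ (1 / (2 * c))) * (α * N ^ 2) := by
            field_simp
        _ = α * N ^ 2 := by
            rw [← Real.rpow_add (by positivity)]
            simp
    have h9 : (0 : ℝ) ≤ (corners A).card := Nat.cast_nonneg _
    linarith
  · push Not at hcor
    have h1 : κ * α ^ D * N ^ 3 ≤ κ1 * (α / 2) ^ D * N ^ 3 := by
      refine mul_le_mul_of_nonneg_right ?_ (by positivity)
      calc κ * α ^ D ≤ κ1 * (1 / 2) ^ D * α ^ D := mul_le_mul_of_nonneg_right hκa (by positivity)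
        _ = κ1 * (α / 2) ^ D := by
            rw [mul_assoc, ← Real.mul_rpow (by norm_num) hα0.le]
            congr 2
            ring
    linarith

/-- the removal lemma implies power saving -/
theorem PS_of_RL {c κ : ℝ} (hc : 0 < c) (hκ : 0 < κ) (h : RL (1 + 1 / (2 * c)) κ) :
    ∃ C : ℝ, 0 < C ∧ PS c C := by
  refine ⟨2 * (8 / κ) ^ (2 * c) * (2 : ℝ) ^ (2 - 2 * c), by positivity, ?_⟩
  intro n A hA
  classical
  rcases A.eq_empty_or_nonempty with rfl | hne
  · simp only [card_empty, Nat.cast_zero]; positivity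
  have hApos : (0 : ℝ) < A.card := by exact_mod_cast card_pos.2 hne
  set M : ℝ := (2 : ℝ) ^ (n + 1) with hM
  have hM0 : 0 < M := by positivity
  -- the blow-up
  let π : V (n + 1) → V n := fun v => Fin.tail v
  let B : Finset (V (n + 1) × V (n + 1)) := univ.filter fun q => (π q.1, π q.2) ∈ A
  have hcons : ∀ (a : ZMod 2) (v : V n), π (Fin.cons a v : V (n + 1)) = v := by
    intro a v
    funext i
    simp [π, Fin.tail]
  have hBc : B.card ≤ 4 * A.card := by
    have : B.card ≤ (A ×ˢ (univ : Finset (ZMod 2 × ZMod 2))).card := by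
      refine card_le_card_of_injOn (fun q => ((π q.1, π q.2), (q.1 0, q.2 0))) ?_ ?_
      · intro q hq
        exact mem_coe.2 (mem_product.2 ⟨(mem_filter.1 (mem_coe.1 hq)).2, mem_univ _⟩)
      · intro q _ q' _ hqq
        obtain ⟨h1, h2⟩ := Prod.mk.inj hqq
        obtain ⟨h3, h4⟩ := Prod.mk.inj h1
        obtain ⟨h5, h6⟩ := Prod.mk.inj h2
        refine Prod.ext ?_ ?_
        · rw [← Fin.cons_self_tail q.1, ← Fin.cons_self_tail q'.1, h5]
          congr 1
        · rw [← Fin.cons_self_tail q.2, ← Fin.cons_self_tail q'.2, h6]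
          congr 1
    rw [card_product, card_univ, Fintype.card_prod, ZMod.card] at this
    omega
  have hcor : (corners B).card ≤ B.card := by
    refine card_le_card_of_injOn (fun t => (t.1, t.2.1)) ?_ ?_
    · intro t ht
      exact mem_coe.2 (mem_filter.1 (mem_coe.1 ht)).2.2.1
    · intro t ht t' ht' htt
      have key : ∀ t ∈ corners B, t.2.2 = Fin.cons 1 0 := by
        intro t ht
        obtain ⟨hz, h1, h2, h3⟩ := (mem_filter.1 ht).2
        have e1 := (mem_filter.1 h1).2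
        have e2 := (mem_filter.1 h2).2
        have e3 := (mem_filter.1 h3).2
        have hpz : π t.2.2 = 0 := by
          by_contra hne'
          refine hA (π t.1) (π t.2.1) (π t.2.2) hne' e1 ?_ ?_
          · exact e2
          · exact e3
        have hz0 : t.2.2 0 = 1 := by
          rcases zmod2 (t.2.2 0) with h0 | h0
          · exfalso
            apply hz
            rw [← Fin.cons_self_tail t.2.2, h0]
            have : Fin.tail t.2.2 = 0 := hpz
            rw [this]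
            funext i
            refine Fin.cases ?_ (fun j => ?_) i <;> simp
          · exact h0
        rw [← Fin.cons_self_tail t.2.2, hz0]
        have : Fin.tail t.2.2 = 0 := hpz
        rw [this]
      obtain ⟨h1, h2⟩ := Prod.mk.inj htt
      refine Prod.ext h1 (Prod.ext h2 ?_)
      rw [key t (mem_coe.1 ht), key t' (mem_coe.1 ht')]
  have hmiss : ∀ B' ⊆ B, CF B' → A.card ≤ (B \ B').card := by
    intro B' hB' hcf
    have hex : ∀ a : V n × V n, ∃ q : V (n + 1) × V (n + 1), a ∈ A →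
        q ∈ B \ B' ∧ (π q.1, π q.2) = a := by
      intro a
      by_cases ha : a ∈ A
      · have m : ∀ s t : ZMod 2, ((Fin.cons s a.1 : V (n + 1)), (Fin.cons t a.2 : V (n + 1))) ∈ B :=
          fun s t => mem_filter.2 ⟨mem_univ _, by rw [hcons, hcons]; exact ha⟩
        by_contra hcon
        push Not at hcon
        have m' : ∀ s t : ZMod 2,
            ((Fin.cons s a.1 : V (n + 1)), (Fin.cons t a.2 : V (n + 1))) ∈ B' := by
          intro s t
          by_contra hnot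
          have := (hcon (Fin.cons s a.1, Fin.cons t a.2)).2 (mem_sdiff.2 ⟨m s t, hnot⟩)
          exact this (by rw [hcons, hcons])
        have hz : (Fin.cons 1 0 : V (n + 1)) ≠ 0 := by
          intro h0
          have := congrFun h0 0
          rw [Fin.cons_zero] at this
          exact one_ne_zero this
        have hadd : ∀ v : V n, (Fin.cons 0 v : V (n + 1)) + Fin.cons 1 0 = Fin.cons 1 v := by
          intro v
          funext i
          refine Fin.cases ?_ (fun j => ?_) i <;> simp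
        refine hcf (Fin.cons 0 a.1) (Fin.cons 0 a.2) (Fin.cons 1 0) hz (m' 0 0) ?_ ?_
        · rw [hadd]; exact m' 0 1
        · rw [hadd]; exact m' 1 0
      · exact ⟨0, fun h => absurd h ha⟩
    choose f hf using hex
    refine card_le_card_of_injOn f (fun a ha => mem_coe.2 (hf a (mem_coe.1 ha)).1) ?_
    intro a ha a' ha' haa
    rw [← (hf a (mem_coe.1 ha)).2, ← (hf a' (mem_coe.1 ha')).2, haa]
  -- conclusion
  obtain ⟨ε, hε0, hAε⟩ : ∃ ε : ℝ, 0 < ε ∧ (A.card : ℝ) = 2 * M ^ 2 * ε :=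
    ⟨(A.card : ℝ) / (2 * M ^ 2), by positivity, (mul_div_cancel₀ _ (by positivity)).symm⟩
  have h1 : κ * ε ^ (1 + 1 / (2 * c)) * M ^ 3 ≤ 8 * ε * M ^ 2 := by
    by_contra hcon
    push Not at hcon
    have h2 : ((corners B).card : ℝ) < κ * ε ^ (1 + 1 / (2 * c)) * M ^ 3 := by
      refine lt_of_le_of_lt ?_ hcon
      have : ((corners B).card : ℝ) ≤ 4 * (A.card : ℝ) := by exact_mod_cast hcor.trans hBc
      rw [hAε] at this
      linarith
    obtain ⟨B', hB', hcf, hcard⟩ := h (n + 1) B ε hε0 h2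
    have h3 : (A.card : ℝ) ≤ ε * M ^ 2 := le_trans (by exact_mod_cast hmiss B' hB' hcf) hcard
    rw [hAε] at h3
    have : 0 < ε * M ^ 2 := by positivity
    linarith
  have h2 : ε ^ (1 / (2 * c)) ≤ 8 / κ * M⁻¹ := by
    rw [Real.rpow_add hε0, Real.rpow_one] at h1
    have h3 : (κ * ε ^ (1 / (2 * c)) * M) * (ε * M ^ 2) ≤ 8 * (ε * M ^ 2) := by
      calc (κ * ε ^ (1 / (2 * c)) * M) * (ε * M ^ 2) = κ * (ε * ε ^ (1 / (2 * c))) * M ^ 3 := by ring
        _ ≤ 8 * ε * M ^ 2 := h1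
        _ = 8 * (ε * M ^ 2) := by ring
    have h4 := le_of_mul_le_mul_right h3 (by positivity)
    rw [← div_eq_mul_inv, div_div, le_div_iff₀ (by positivity)]
    linarith
  have h4 : ε ≤ (8 / κ) ^ (2 * c) * M ^ (-(2 * c)) := by
    have : ε = (ε ^ (1 / (2 * c))) ^ (2 * c) := by
      rw [← Real.rpow_mul hε0.le, one_div_mul_cancel (by positivity), Real.rpow_one]
    rw [this]
    refine (Real.rpow_le_rpow (by positivity) h2 (by linarith)).trans (le_of_eq ?_)
    rw [Real.mul_rpow (by positivity) (by positivity), Real.inv_rpow hM0.le,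
      ← Real.rpow_neg hM0.le]
  calc (A.card : ℝ) = 2 * M ^ 2 * ε := hAε
    _ ≤ 2 * M ^ 2 * ((8 / κ) ^ (2 * c) * M ^ (-(2 * c))) :=
        mul_le_mul_of_nonneg_left h4 (by positivity)
    _ = 2 * (8 / κ) ^ (2 * c) * M ^ (2 - 2 * c) := by
        have e1 : M ^ (2 - 2 * c) = M ^ 2 * M ^ (-(2 * c)) := by
          have : M ^ 2 = M ^ (2 : ℝ) := by norm_num
          rw [this, ← Real.rpow_add hM0]
          congr 1
        rw [e1]; ring
    _ = 2 * (8 / κ) ^ (2 * c) * (2 : ℝ) ^ (2 - 2 * c) * ((2 : ℝ) ^ n) ^ (2 - 2 * c) := by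
        rw [hM, pow_succ, Real.mul_rpow (by positivity) (by norm_num)]
        ring

end Pool.Agent.Q93.CR
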